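import Pool.Agent.Y581.WN.StmS

/-! Project WN: the parts MAT, SEL and SIZ. -/

set_option autoImplicit false

namespace Pool.Agent.Y15.WN

open Pool.Agent.NPC Pool.Agent.H622R2 Pool.Agent.H620R2.Gauge Pool.Agent.TH678.GC
  Pool.Agent.H591R3.PHG Pool.Agent.TH678.RS Pool.Agent.H622R2.Exp Pool.Agent.Y626.WG
  Pool.Agent.Y581.WN

theorem length_labn (n c ν j i : ℕ) : (labn n c ν j i).length = n + 1 + c + ν := by
  unfold labn
  rw [List.length_append, List.length_cons, List.length_append, length_bitsOf, length_bitsOf,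
    List.length_replicate]
  ring

theorem flat_injn {n c ν : ℕ} : ∀ {r : ℕ} {v v' : List ℕ} {j j' : ℕ}, 1 ≤ r → Tup (2 ^ ν) r v →
    Tup (2 ^ ν) r v' → j < 2 ^ c → j' < 2 ^ c →
    v.flatMap (labn n c ν j) = v'.flatMap (labn n c ν j') → j = j' ∧ v = v' := by
  intro r
  induction r with
  | zero => intro v v' j j' h; omega
  | succ r ih =>
    intro v v' j j' _ hv hv' hj hj' h
    rcases v with _ | ⟨a, v⟩
    · exact absurd hv.1 (by simp)
    rcases v' with _ | ⟨a', v'⟩
    · exact absurd hv'.1 (by simp)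
    rw [List.flatMap_cons, List.flatMap_cons] at h
    obtain ⟨h1, h2⟩ := List.append_inj h (by rw [length_labn, length_labn])
    have h3 : bitsOf c j ++ bitsOf ν a = bitsOf c j' ++ bitsOf ν a' := by
      unfold labn at h1
      exact (List.cons.inj (List.append_cancel_left h1)).2
    obtain ⟨h4, h5⟩ := List.append_inj h3 (by rw [length_bitsOf, length_bitsOf])
    have hj0 : j = j' := bitsOf_inj hj hj' h4
    have ha : a = a' := bitsOf_inj (hv.2 a (List.mem_cons_self ..))
      (hv'.2 a' (List.mem_cons_self ..)) h5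
    subst hj0
    subst ha
    refine ⟨rfl, ?_⟩
    rcases Nat.eq_zero_or_pos r with h0 | h0
    · subst h0
      have e1 : v = [] := List.eq_nil_of_length_eq_zero (by simpa using hv.1)
      have e2 : v' = [] := List.eq_nil_of_length_eq_zero (by simpa using hv'.1)
      rw [e1, e2]
    · have h6 := ih h0 (v := v) (v' := v') (j := j) (j' := j)
        ⟨by simpa using hv.1, fun x hx => hv.2 x (List.mem_cons_of_mem _ hx)⟩
        ⟨by simpa using hv'.1, fun x hx => hv'.2 x (List.mem_cons_of_mem _ hx)⟩ hj hj h2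
      rw [h6.2]

theorem sing_orcn {K c : ℕ} (as : List ℕ) (s : Idx (Fin K) (pw as) → Option Bool)
    (B : Oracle) (n k t ν τ : ℕ) (S : ℕ → List ℕ) (rest : List ℕ) (q : List Bool) :
    Sing (fun z => orcn B n k t c ν τ S rest (fo c as (val s z)) q) := by
  unfold orcn
  by_cases h : ∃ p, IsLeafn n t c ν τ S q p
  · simp only [dif_pos h]
    exact (sing_fo as s _).comp (fun b => b == !(fl t false))
  · simp only [dif_neg h]
    exact Or.inl ⟨basen B n k t c ν q, fun _ => rfl⟩

theorem sing_atomn {K c : ℕ} (as : List ℕ) (s : Idx (Fin K) (pw as) → Option Bool)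
    (B : Oracle) (n k t ν τ : ℕ) (S : ℕ → List ℕ) (rest : List ℕ) (I : Inst) (v : List ℕ)
    (a : ℕ × List ℕ) :
    Sing (fun z => I.atom (orcn B n k t c ν τ S rest (fo c as (val s z))) v a) := by
  obtain ⟨r, l⟩ := a
  rcases r with _ | r
  · exact sing_orcn as s B n k t ν τ S rest _
  · exact Or.inl ⟨_, fun _ => rfl⟩

theorem t_mat : S_mat := by
  intro K c as s B n k t ν τ S rest I v
  classical
  have h1 := DTr_list (I.atoms.map fun a (z : Idx (Fin K) (pw as) → Bool) =>
    I.atom (orcn B n k t c ν τ S rest (fo c as (val s z))) v a) (by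
    intro f hf
    obtain ⟨a, _, rfl⟩ := List.mem_map.1 hf
    exact sing_atomn as s B n k t ν τ S rest I v a)
    (fun x => @decide (x ∈ I.acc) (Classical.propDecidable _))
  rw [List.length_map] at h1
  refine (congrArg (Pool.Agent.H676.DTr I.atoms.length) (funext fun z => ?_)).mp h1
  rw [List.map_map]
  rfl

theorem t_sel : S_sel := by
  intro n k t c ν τ hk Q h
  classical
  have htup : ∀ w : Fin k → Fin (2 ^ ν), Tup (2 ^ ν) k (List.ofFn fun i => (w i : ℕ)) := by
    intro w
    refine ⟨List.length_ofFn, fun x hx => ?_⟩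
    obtain ⟨i, rfl⟩ := (List.mem_ofFn' _ _).1 hx
    exact (w i).2
  have hinj : ∀ w w' : Fin k → Fin (2 ^ ν), (List.ofFn fun i => (w i : ℕ)) =
      (List.ofFn fun i => (w' i : ℕ)) → w = w' := by
    intro w w' h1
    have h2 := List.ofFn_injective h1
    funext i
    exact Fin.ext (congrFun h2 i)
  set Z : Finset (Fin k → Fin (2 ^ ν)) := Finset.univ.filter fun w =>
    ∃ q ∈ Q, ∃ j < 2 ^ c, ∃ y, Tup (2 ^ ν) t y ∧
      q = ((List.ofFn fun i => (w i : ℕ)) ++ y).flatMap (labn n c ν j) with hZ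
  have h1 : Z.card ≤ Q.card := by
    have h0 : ∀ w ∈ Z, ∃ q ∈ Q, ∃ j < 2 ^ c, ∃ y, Tup (2 ^ ν) t y ∧
      q = ((List.ofFn fun i => (w i : ℕ)) ++ y).flatMap (labn n c ν j) := fun w hw =>
      (Finset.mem_filter.1 hw).2
    choose! g hg using h0
    refine Finset.card_le_card_of_injOn g (fun w hw => (hg w hw).1) ?_
    intro w hw w' hw' he
    obtain ⟨_, j, hj, y, hy, e⟩ := hg w hw
    obtain ⟨_, j', hj', y', hy', e'⟩ := hg w' hw'
    have h2 := flat_injn (n := n) (c := c) (ν := ν) (r := k + t) (by omega)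
      ((htup w).append hy) ((htup w').append hy') hj hj' (e.symm.trans (he.trans e'))
    exact hinj _ _ (List.append_inj h2.2 (by simp)).1
  have h2 : 2 ^ τ ≤ (Zᶜ).card := by
    rw [Finset.card_compl, Fintype.card_fun, Fintype.card_fin, Fintype.card_fin, ← pow_mul]
    omega
  obtain ⟨W, hW1, hW2⟩ := Finset.exists_subset_card_eq h2
  have e := Finset.equivFinOfCardEq hW2
  refine ⟨fun i => if h : i < 2 ^ τ then List.ofFn fun a => ((e.symm ⟨i, h⟩).1 a : ℕ) else [],
    ⟨?_, ?_⟩, ?_⟩
  · intro i hi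
    rw [dif_pos hi]
    exact htup _
  · intro i hi i' hi' h3
    rw [dif_pos hi, dif_pos hi'] at h3
    have h4 := e.symm.injective (Subtype.ext (hinj _ _ h3))
    simpa using h4
  · rintro q hq ⟨⟨j, i, y⟩, h3, h4, h5, h6⟩
    dsimp only at h3 h4 h5 h6
    rw [dif_pos h4] at h6
    have h7 := hW1 (e.symm ⟨i, h4⟩).2
    rw [Finset.mem_compl] at h7
    exact h7 (Finset.mem_filter.2 ⟨Finset.mem_univ _, q, hq, j, h3, y, h5, h6⟩)

theorem t_siz : S_siz := by
  intro n k t c ν j
  have e : sz (hardn n k t c ν j) = sz ((List.range (2 ^ ν)).map (labn n c ν j)) +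
      (sz ([] : List (List (ℕ × ℕ))) + (sz (k :: List.replicate t 1) +
      (sz ([(0, List.range (k + t))] : List (ℕ × List ℕ)) + sz [[true]] + 1) + 1) + 1) + 1 := by
    have : sz (hardn n k t c ν j) = sz ((List.range (2 ^ ν)).map (labn n c ν j),
      ([] : List (List (ℕ × ℕ))), k :: List.replicate t 1,
      ([(0, List.range (k + t))] : List (ℕ × List ℕ)), [[true]]) := rfl
    rw [this, sz_pair, sz_pair, sz_pair, sz_pair]
  have h1 := sz_le_length_mul ((List.range (2 ^ ν)).map (labn n c ν j))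
    (4 * (n + 1 + c + ν) + 1) (by
    intro a ha
    obtain ⟨i, _, rfl⟩ := List.mem_map.1 ha
    have := sz_listBool_le (labn n c ν j i)
    rw [length_labn] at this
    exact this)
  rw [List.length_map, List.length_range] at h1
  have h2 : sz [[true]] = 7 := by simp
  have h3 : sz ([] : List (List (ℕ × ℕ))) = 1 := rfl
  rw [e, h2, h3]
  unfold cst
  have e2 : 4 * (n + 1 + c + ν) + 1 + 1 = 4 * (n + 1 + c + ν) + 2 := rfl
  rw [e2] at h1
  omega

end Pool.Agent.Y15.WN
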